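import Pool.Agent.Y387.AP.Frame2
import Pool.Agent.H295R3.Hoheisel

/-!
# Approximate maximal equiangular tight frames in every dimension, with a power saving
-/

set_option autoImplicit false

open Finset

namespace Pool.Agent.Y387.AP

/-- primes just above `d` -/
lemma prime_power_short : ∃ (δ : ℝ) (d₀ : ℕ), 0 < δ ∧ δ < 1 ∧ 30 ≤ d₀ ∧ ∀ d : ℕ, d₀ ≤ d →
    ∃ q : ℕ, q.Prime ∧ d < q ∧ (q : ℝ) ≤ d + 2 * (d : ℝ) ^ (1 - δ) ∧ q ≤ 2 * d := by
  obtain ⟨δ, η, hδ0, hδ1, hη, X₀, hX₀, h⟩ := Pool.Agent.H295R3.D.hoheisel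
  refine ⟨δ, max X₀ 30, hδ0, hδ1, le_max_right _ _, fun d hd => ?_⟩
  have hd1 : X₀ ≤ d := le_trans (le_max_left _ _) hd
  have hd2 : 30 ≤ d := le_trans (le_max_right _ _) hd
  have hdR : (30 : ℝ) ≤ d := by exact_mod_cast hd2
  have hd0 : (0 : ℝ) < d := by linarith
  have hp1 : (1 : ℝ) ≤ (d : ℝ) ^ (1 - δ) := Real.one_le_rpow (by linarith) (by linarith)
  have hp2 : (d : ℝ) ^ (1 - δ) ≤ d := by
    calc (d : ℝ) ^ (1 - δ) ≤ (d : ℝ) ^ (1 : ℝ) :=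
          Real.rpow_le_rpow_of_exponent_le (by linarith) (by linarith)
      _ = d := Real.rpow_one _
  set Y : ℕ := ⌈(d : ℝ) ^ (1 - δ)⌉₊ with hY
  have hY1 : (d : ℝ) ^ (1 - δ) ≤ Y := Nat.le_ceil _
  have hY2 : Y ≤ d := by
    rw [hY, Nat.ceil_le]
    exact hp2
  have hY3 : (Y : ℝ) ≤ 2 * (d : ℝ) ^ (1 - δ) := by
    have := Nat.ceil_lt_add_one (by linarith : (0 : ℝ) ≤ (d : ℝ) ^ (1 - δ))
    rw [← hY] at this
    linarith
  have h1 := h d Y hd1 hY1 hY2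
  have h2 : (0 : ℝ) < η * Y / Real.log d := by
    apply div_pos (mul_pos hη (by linarith))
    exact Real.log_pos (by linarith)
  have h3 : 0 < ((Ioc d (d + Y)).filter Nat.Prime).card := by
    have := lt_of_lt_of_le h2 h1
    exact_mod_cast this
  obtain ⟨q, hq⟩ := card_pos.mp h3
  rw [mem_filter, mem_Ioc] at hq
  refine ⟨q, hq.2, hq.1.1, ?_, by omega⟩
  have h4 : (q : ℝ) ≤ d + Y := by exact_mod_cast hq.1.2
  linarith

lemma aux1 {p d : ℝ} (hp0 : 0 ≤ p) (hp : p ≤ 2 * d) (hd : 30 ≤ d) :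
    2 * (2 * (p ^ 2 + p + 1) + 1) ≤ d ^ 3 := by
  have e1 : p ^ 2 ≤ (2 * d) ^ 2 := pow_le_pow_left₀ hp0 hp 2
  have e2 : 30 * d ^ 2 ≤ d ^ 3 := by
    have : d ^ 3 = d * d ^ 2 := by ring
    rw [this]
    exact mul_le_mul_of_nonneg_right hd (by positivity)
  have e3 : 30 * d ≤ d ^ 2 := by
    rw [sq]
    exact mul_le_mul_of_nonneg_right hd (by linarith)
  have e4 : (2 * d) ^ 2 = 4 * d ^ 2 := by ring
  linarith

lemma aux2 {p d s : ℝ} (hp0 : 0 ≤ p) (hd : 30 ≤ d) (hs0 : 0 < s) (hs1 : s ≤ 1)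
    (hp : p ≤ d + 2 * (d * s)) (hds : 1 ≤ d * s) :
    p ^ 2 + p + 1 ≤ (1 + 11 * s) * d ^ 2 := by
  have h1 : p ^ 2 ≤ (d + 2 * (d * s)) ^ 2 := pow_le_pow_left₀ hp0 hp 2
  have h3 : (d + 2 * (d * s)) ^ 2 ≤ (1 + 8 * s) * d ^ 2 := by
    have e1 : (d + 2 * (d * s)) ^ 2 = (1 + 4 * s + 4 * (s * s)) * d ^ 2 := by ring
    rw [e1]
    apply mul_le_mul_of_nonneg_right _ (by positivity)
    have : s * s ≤ s * 1 := mul_le_mul_of_nonneg_left hs1 hs0.le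
    linarith
  have h4 : p + 1 ≤ 3 * s * d ^ 2 := by
    have e1 : d * 1 ≤ d * (d * s) := mul_le_mul_of_nonneg_left hds (by linarith)
    have e2 : d * s ≤ d := mul_le_of_le_one_right (by linarith) hs1
    have e3 : d * (d * s) = s * d ^ 2 := by ring
    have e4 : d * s * 30 ≤ d * s * d := mul_le_mul_of_nonneg_left hd (by linarith)
    have e5 : d * s * d = s * d ^ 2 := by ring
    linarith
  have h5 : (1 + 8 * s) * d ^ 2 + 3 * s * d ^ 2 = (1 + 11 * s) * d ^ 2 := by ring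
  linarith

lemma aux3 {p d s : ℝ} (hd : 30 ≤ d) (hp : p ≤ d + 2 * (d * s)) (hds : 1 ≤ d * s)
    (_hs1 : s ≤ 1) : (d + 1) * p - d ^ 2 ≤ 4 * s * d ^ 2 := by
  have h1 : (d + 1) * p ≤ (d + 1) * (d + 2 * (d * s)) :=
    mul_le_mul_of_nonneg_left hp (by linarith)
  have h2 : (d + 1) * (d + 2 * (d * s)) - d ^ 2 = 2 * (s * d ^ 2) + d + 2 * (d * s) := by ring
  have h3 : d * 1 ≤ d * (d * s) := mul_le_mul_of_nonneg_left hds (by linarith)
  have h4 : d * (d * s) = s * d ^ 2 := by ring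
  have h5 : d * s * 30 ≤ d * s * d := mul_le_mul_of_nonneg_left hd (by linarith)
  have h6 : d * s * d = s * d ^ 2 := by ring
  linarith

lemma aux4 {p d : ℝ} (hd : 0 ≤ d) (hp : d ≤ p) : 0 ≤ (d + 1) * p - d ^ 2 := by
  have h1 : (d + 1) * d ≤ (d + 1) * p := mul_le_mul_of_nonneg_left hp (by linarith)
  have h2 : (d + 1) * d = d ^ 2 + d := by ring
  linarith

lemma aux5 {d : ℝ} (hd : 1 ≤ d) : (d + 1) / d ^ 2 ≤ 2 / d := by
  rw [div_le_div_iff₀ (by positivity) (by linarith)]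
  have : d * 1 ≤ d * d := mul_le_mul_of_nonneg_left hd (by linarith)
  have e : (d + 1) * d = d * d + d := by ring
  have e' : 2 * d ^ 2 = 2 * (d * d) := by ring
  linarith

lemma aux6 {x p : ℝ} (hp : 0 ≤ p) : x ^ 2 - p = (x - √p) * (x + √p) := by
  have h := Real.mul_self_sqrt hp
  calc x ^ 2 - p = x ^ 2 - √p * √p := by rw [h]
    _ = (x - √p) * (x + √p) := by ring

/-- the case of large dimension -/
lemma large : ∃ (c C : ℝ) (d₀ : ℕ), 0 < c ∧ c ≤ 1 ∧ 0 < C ∧ 1 ≤ d₀ ∧ ∀ d : ℕ, d₀ ≤ d →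
    ∃ (N : ℕ) (x : Fin N → EuclideanSpace ℂ (Fin d)),
      (N : ℝ) ≤ (1 + C * (d : ℝ) ^ (-c)) * (d : ℝ) ^ 2 ∧
      (∀ i, ‖x i‖ = 1) ∧
      (∀ i j, i ≠ j →
        |((d : ℝ) + 1) * ‖inner ℂ (x i) (x j)‖ ^ 2 - 1| ≤ C * (d : ℝ) ^ (-c)) ∧
      (∀ u : EuclideanSpace ℂ (Fin d),
        ∑ i, ‖inner ℂ (x i) u‖ ^ 2 = ((N : ℝ) / d) * ‖u‖ ^ 2) ∧
      ∃ S : Finset (Fin N), S.card = d ^ 2 ∧ ∀ u : EuclideanSpace ℂ (Fin d),
        |∑ i ∈ S, ‖inner ℂ (x i) u‖ ^ 2 - d * ‖u‖ ^ 2| ≤ C * (d : ℝ) ^ (-c) * (d * ‖u‖ ^ 2) := by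
  obtain ⟨δ, d₀, hδ0, hδ1, hd₀, hq⟩ := prime_power_short
  set B : ℝ := 9 * √(18 / δ) with hB
  set B' : ℝ := 8 * √(66 / δ) with hB'
  have hB0 : 0 ≤ B := by positivity
  have hB'0 : 0 ≤ B' := by positivity
  refine ⟨δ / 4, (2 * (B * (B + 3)) + 4) + 11 + B', d₀, by positivity, by linarith, by positivity,
    by omega, fun d hd => ?_⟩
  obtain ⟨p, hp, hdp, hp1, hp2⟩ := hq d hd
  have : Fact p.Prime := ⟨hp⟩
  have hd2 : 30 ≤ d := hd₀.trans hd
  have hdR : (30 : ℝ) ≤ d := by exact_mod_cast hd2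
  have hd0 : (0 : ℝ) < d := by linarith
  have hdpR : (d : ℝ) < p := by exact_mod_cast hdp
  have hpR : (0 : ℝ) < p := by linarith
  have hp2R : (p : ℝ) ≤ 2 * d := by exact_mod_cast hp2
  set l := Real.log d with hl
  have hl1 : 1 ≤ l := by
    rw [hl, Real.le_log_iff_exp_le hd0]
    have := Real.exp_one_lt_d9
    linarith
  have hll : l ≤ (2 / δ) * (d : ℝ) ^ (δ / 2) := by
    have h1 := Real.log_le_rpow_div (x := (d : ℝ)) hd0.le (ε := δ / 2) (by positivity)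
    rw [← hl] at h1
    refine h1.trans (le_of_eq ?_)
    field_simp
  -- powers of `d`
  set s : ℝ := (d : ℝ) ^ (-(δ / 4)) with hs
  have hs0 : 0 < s := Real.rpow_pos_of_pos hd0 _
  have hs1 : s ≤ 1 := Real.rpow_le_one_of_one_le_of_nonpos (by linarith) (by linarith)
  have hs2 : s ^ 2 = (d : ℝ) ^ (-(δ / 2)) := by
    rw [hs, ← Real.rpow_natCast, ← Real.rpow_mul hd0.le]
    congr 1
    push_cast
    ring
  have hs4 : (d : ℝ) ^ (1 - δ) = d * s ^ 4 := by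
    have : s ^ 4 = (d : ℝ) ^ (-δ) := by
      rw [hs, ← Real.rpow_natCast, ← Real.rpow_mul hd0.le]
      congr 1
      push_cast
      ring
    rw [this, sub_eq_add_neg, Real.rpow_add hd0, Real.rpow_one]
  have hs5 : (d : ℝ) ^ (δ / 2) * s ^ 2 = 1 := by
    rw [hs2, ← Real.rpow_add hd0]
    simp
  have hs6 : 1 / (d : ℝ) ≤ s := by
    rw [hs, one_div, ← Real.rpow_neg_one]
    exact Real.rpow_le_rpow_of_exponent_le (by linarith) (by linarith)
  have hs7 : 1 ≤ d * s ^ 4 := by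
    rw [← hs4]
    exact Real.one_le_rpow (by linarith) (by linarith)
  have hs8 : s ^ 4 ≤ s := by
    calc s ^ 4 = s * s ^ 3 := by ring
      _ ≤ s * 1 := mul_le_mul_of_nonneg_left (pow_le_one₀ hs0.le hs1) hs0.le
      _ = s := mul_one _
  rw [hs4] at hp1
  have hK : d ^ 2 ≤ p ^ 2 + p + 1 := by
    have : d ^ 2 ≤ p ^ 2 := Nat.pow_le_pow_left hdp.le 2
    omega
  obtain ⟨v, hv1, hv2, hv3, S, hSc, hS⟩ := frame2 p d (by omega) (by omega) (3 * l) (by linarith)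
    (by
      have h1 : 2 * (2 * ((p : ℝ) ^ 2 + p + 1) + 1) ≤ (d : ℝ) ^ 3 := aux1 hpR.le hp2R hdR
      calc Real.log (2 * (2 * ((p : ℝ) ^ 2 + p + 1) + 1)) ≤ Real.log ((d : ℝ) ^ 3) :=
            Real.log_le_log (by positivity) h1
        _ = 3 * l := by rw [Real.log_pow]; norm_num [hl]) (d ^ 2) hK
  -- number of vectors
  have hs40 : 0 < s ^ 4 := by positivity
  have hs41 : s ^ 4 ≤ 1 := pow_le_one₀ hs0.le hs1
  have hN : ((p ^ 2 + p + 1 : ℕ) : ℝ) ≤ (1 + 11 * s ^ 4) * (d : ℝ) ^ 2 := by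
    push_cast
    exact aux2 hpR.le hdR hs40 hs41 hp1 hs7
  -- the numbers of removed coordinates and vectors
  set m : ℕ := p + 1 - d with hm
  have hmR : (m : ℝ) = p + 1 - d := by
    rw [hm, Nat.cast_sub (by omega)]
    push_cast
    ring
  have hm1 : (m : ℝ) ≤ 3 * (d * s ^ 4) := by
    rw [hmR]
    linarith
  have hmL : (m : ℝ) * (3 * l) ≤ (18 / δ) * (d * s ^ 2) := by
    calc (m : ℝ) * (3 * l) ≤ (3 * (d * s ^ 4)) * (3 * ((2 / δ) * (d : ℝ) ^ (δ / 2))) := by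
          apply mul_le_mul hm1 _ (by linarith) (by positivity)
          linarith
      _ = (18 / δ) * (d * s ^ 2) * ((d : ℝ) ^ (δ / 2) * s ^ 2) := by ring
      _ = (18 / δ) * (d * s ^ 2) := by rw [hs5, mul_one]
  have hsd : 0 ≤ √(d : ℝ) := Real.sqrt_nonneg _
  have hsd2 : √(d : ℝ) * √d = d := Real.mul_self_sqrt hd0.le
  set E : ℝ := 9 * √((m : ℝ) * (3 * l)) with hE
  have hE0 : 0 ≤ E := by positivity
  have hE1 : E ≤ B * (√d * s) := by
    rw [hE, hB, mul_assoc]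
    apply mul_le_mul_of_nonneg_left _ (by norm_num)
    calc √((m : ℝ) * (3 * l)) ≤ √((18 / δ) * (d * s ^ 2)) := Real.sqrt_le_sqrt hmL
      _ = √(18 / δ) * (√d * s) := by
          rw [Real.sqrt_mul (by positivity), Real.sqrt_mul hd0.le, Real.sqrt_sq hs0.le]
  have hE2 : E ≤ B * √d := by
    refine hE1.trans (mul_le_mul_of_nonneg_left ?_ hB0)
    exact mul_le_of_le_one_right hsd hs1
  have hsp : √(p : ℝ) ≤ 3 / 2 * √d := by
    rw [Real.sqrt_le_left (by positivity), mul_pow, Real.sq_sqrt hd0.le]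
    linarith
  set M : ℕ := p ^ 2 + p + 1 - d ^ 2 with hM
  have hMR : (M : ℝ) = ((p ^ 2 + p + 1 : ℕ) : ℝ) - (d : ℝ) ^ 2 := by
    rw [hM, Nat.cast_sub hK]
    push_cast
    ring
  have hM1 : (M : ℝ) ≤ 11 * s ^ 4 * (d : ℝ) ^ 2 := by
    rw [hMR]
    linarith
  have hML : (M : ℝ) * (3 * l) ≤ (66 / δ) * (d * s) ^ 2 := by
    calc (M : ℝ) * (3 * l) ≤ (11 * s ^ 4 * (d : ℝ) ^ 2) * (3 * ((2 / δ) * (d : ℝ) ^ (δ / 2))) := by
          apply mul_le_mul hM1 _ (by linarith) (by positivity)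
          linarith
      _ = (66 / δ) * (d * s) ^ 2 * ((d : ℝ) ^ (δ / 2) * s ^ 2) := by ring
      _ = (66 / δ) * (d * s) ^ 2 := by rw [hs5, mul_one]
  have hF : 8 * √((M : ℝ) * (3 * l)) ≤ B' * (d * s) := by
    rw [hB', mul_assoc]
    apply mul_le_mul_of_nonneg_left _ (by norm_num)
    calc √((M : ℝ) * (3 * l)) ≤ √((66 / δ) * (d * s) ^ 2) := Real.sqrt_le_sqrt hML
      _ = √(66 / δ) * (d * s) := by
          rw [Real.sqrt_mul (by positivity), Real.sqrt_sq (by positivity)]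
  refine ⟨p ^ 2 + p + 1, v, ?_, hv1, ?_, hv3, S, hSc, ?_⟩
  · refine hN.trans ?_
    apply mul_le_mul_of_nonneg_right _ (by positivity)
    have h1 : 11 * s ^ 4 ≤ 11 * s := by linarith
    have h2 : 0 ≤ (2 * (B * (B + 3)) + 4 + B') * s := by positivity
    have h3 : (2 * (B * (B + 3)) + 4 + 11 + B') * s =
        (2 * (B * (B + 3)) + 4 + B') * s + 11 * s := by ring
    rw [h3]
    linarith
  · intro i j hij
    set x : ℝ := (d : ℝ) * ‖inner ℂ (v i) (v j)‖ with hx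
    have hx1 : |x - √p| ≤ E := hv2 i j hij
    have hx0 : 0 ≤ x := by positivity
    have h1 : ((d : ℝ) + 1) * ‖inner ℂ (v i) (v j)‖ ^ 2 - 1 =
        (d + 1) / d ^ 2 * (x ^ 2 - p) + ((d + 1) * p - d ^ 2) / d ^ 2 := by
      rw [hx]
      field_simp
      ring
    have h2 : |x ^ 2 - p| ≤ (B * (B + 3)) * (d * s) := by
      have e1 : x ^ 2 - p = (x - √p) * (x + √p) := aux6 hpR.le
      have e2 : x + √p ≤ (B + 3) * √d := by
        have := (abs_le.mp hx1).2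
        linarith
      have e3 : 0 ≤ x + √p := by positivity
      rw [e1, abs_mul, abs_of_nonneg e3]
      calc |x - √p| * (x + √p) ≤ (B * (√d * s)) * ((B + 3) * √d) :=
            mul_le_mul (hx1.trans hE1) e2 e3 (by positivity)
        _ = (B * (B + 3)) * ((√d * √d) * s) := by ring
        _ = (B * (B + 3)) * (d * s) := by rw [hsd2]
    have h3 : |((d + 1) * p - d ^ 2) / (d : ℝ) ^ 2| ≤ 4 * s := by
      have e0 : 0 ≤ ((d : ℝ) + 1) * p - d ^ 2 := aux4 hd0.le hdpR.le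
      rw [abs_of_nonneg (div_nonneg e0 (by positivity)), div_le_iff₀ (by positivity)]
      have e1 : (1 : ℝ) ≤ d * s := by
        have := mul_le_mul_of_nonneg_left hs6 hd0.le
        rwa [mul_one_div_cancel hd0.ne'] at this
      have e2 : (p : ℝ) ≤ d + 2 * (d * s) := by
        have := mul_le_mul_of_nonneg_left hs8 hd0.le
        linarith
      exact aux3 hdR e2 e1 hs1
    rw [h1]
    calc |(d + 1) / d ^ 2 * (x ^ 2 - p) + ((d + 1) * p - d ^ 2) / (d : ℝ) ^ 2|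
        ≤ |(d + 1) / (d : ℝ) ^ 2 * (x ^ 2 - p)| + |((d + 1) * p - d ^ 2) / (d : ℝ) ^ 2| :=
          abs_add_le _ _
      _ ≤ 2 / d * ((B * (B + 3)) * (d * s)) + 4 * s := by
          apply add_le_add _ h3
          rw [abs_mul]
          apply mul_le_mul _ h2 (abs_nonneg _) (by positivity)
          rw [abs_of_nonneg (by positivity)]
          exact aux5 (by linarith)
      _ = (2 * (B * (B + 3)) + 4) * s := by
          field_simp
      _ ≤ (2 * (B * (B + 3)) + 4 + 11 + B') * s := by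
          apply mul_le_mul_of_nonneg_right _ hs0.le
          linarith
  · intro u
    have h1 := hS u
    have h2 : (((d ^ 2 : ℕ) : ℝ) / d) = d := by
      push_cast
      field_simp
    rw [h2] at h1
    refine h1.trans ?_
    calc 8 * √((M : ℝ) * (3 * l)) * ‖u‖ ^ 2 ≤ B' * (d * s) * ‖u‖ ^ 2 :=
          mul_le_mul_of_nonneg_right hF (by positivity)
      _ = B' * s * (d * ‖u‖ ^ 2) := by ring
      _ ≤ (2 * (B * (B + 3)) + 4 + 11 + B') * s * (d * ‖u‖ ^ 2) := by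
          apply mul_le_mul_of_nonneg_right _ (by positivity)
          apply mul_le_mul_of_nonneg_right _ hs0.le
          have : 0 ≤ B * (B + 3) := by positivity
          linarith

/-- `d` copies of the standard basis -/
lemma small (d : ℕ) (hd : 1 ≤ d) : ∃ x : Fin (d ^ 2) → EuclideanSpace ℂ (Fin d),
    (∀ i, ‖x i‖ = 1) ∧ (∀ i j, i ≠ j → |((d : ℝ) + 1) * ‖inner ℂ (x i) (x j)‖ ^ 2 - 1| ≤ (d : ℝ)) ∧
    ∀ u : EuclideanSpace ℂ (Fin d), ∑ i, ‖inner ℂ (x i) u‖ ^ 2 = (d : ℝ) * ‖u‖ ^ 2 := by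
  classical
  have hdR : (1 : ℝ) ≤ d := by exact_mod_cast hd
  let e : Fin (d ^ 2) ≃ Fin d × Fin d := Fintype.equivOfCardEq (by simp [sq])
  let x : Fin (d ^ 2) → EuclideanSpace ℂ (Fin d) := fun i => EuclideanSpace.single (e i).1 1
  have hx1 : ∀ i, ‖x i‖ = 1 := by
    intro i
    simp [x]
  refine ⟨x, hx1, ?_, ?_⟩
  · intro i j _
    have h1 : ‖inner ℂ (x i) (x j)‖ ≤ 1 := by
      have := norm_inner_le_norm (𝕜 := ℂ) (x i) (x j)
      rwa [hx1, hx1, mul_one] at this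
    have h2 : ‖inner ℂ (x i) (x j)‖ ^ 2 ≤ 1 := pow_le_one₀ (norm_nonneg _) h1
    have h3 : 0 ≤ ‖inner ℂ (x i) (x j)‖ ^ 2 := by positivity
    rw [abs_le]
    constructor <;> nlinarith
  · intro u
    have h1 : ∀ i, ‖inner ℂ (x i) u‖ ^ 2 = ‖u (e i).1‖ ^ 2 := by
      intro i
      simp only [x]
      rw [EuclideanSpace.inner_single_left]
      simp
    rw [sum_congr rfl (fun i _ => h1 i)]
    rw [Fintype.sum_equiv e (fun i => ‖u (e i).1‖ ^ 2) (fun ab => ‖u ab.1‖ ^ 2) (fun _ => rfl),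
      Fintype.sum_prod_type]
    simp only [sum_const, card_univ, Fintype.card_fin, nsmul_eq_mul]
    rw [← mul_sum, EuclideanSpace.norm_sq_eq]

theorem main : ∃ c C : ℝ, 0 < c ∧ 0 < C ∧ ∀ d : ℕ, 1 ≤ d →
    ∃ (N : ℕ) (x : Fin N → EuclideanSpace ℂ (Fin d)),
      (N : ℝ) ≤ (1 + C * (d : ℝ) ^ (-c)) * (d : ℝ) ^ 2 ∧
      (∀ i, ‖x i‖ = 1) ∧
      (∀ i j, i ≠ j →
        |((d : ℝ) + 1) * ‖inner ℂ (x i) (x j)‖ ^ 2 - 1| ≤ C * (d : ℝ) ^ (-c)) ∧
      (∀ u : EuclideanSpace ℂ (Fin d),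
        ∑ i, ‖inner ℂ (x i) u‖ ^ 2 = ((N : ℝ) / d) * ‖u‖ ^ 2) ∧
      ∃ S : Finset (Fin N), S.card = d ^ 2 ∧ ∀ u : EuclideanSpace ℂ (Fin d),
        |∑ i ∈ S, ‖inner ℂ (x i) u‖ ^ 2 - d * ‖u‖ ^ 2| ≤ C * (d : ℝ) ^ (-c) * (d * ‖u‖ ^ 2) := by
  obtain ⟨c, C, d₀, hc, hc1, hC, hd₀, h⟩ := large
  refine ⟨c, max C ((d₀ : ℝ) ^ 2), hc, lt_max_of_lt_left hC, fun d hd => ?_⟩
  have hdR : (1 : ℝ) ≤ d := by exact_mod_cast hd
  have hd0 : (0 : ℝ) < d := by linarith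
  have hpos : 0 < (d : ℝ) ^ (-c) := Real.rpow_pos_of_pos hd0 _
  rcases le_or_gt d₀ d with hle | hlt
  · obtain ⟨N, x, h1, h2, h3, h4, S, h5, h6⟩ := h d hle
    have hCC : C * (d : ℝ) ^ (-c) ≤ max C ((d₀ : ℝ) ^ 2) * (d : ℝ) ^ (-c) :=
      mul_le_mul_of_nonneg_right (le_max_left _ _) hpos.le
    refine ⟨N, x, h1.trans ?_, h2, fun i j hij => (h3 i j hij).trans hCC, h4, S, h5,
      fun u => (h6 u).trans ?_⟩
    · apply mul_le_mul_of_nonneg_right _ (by positivity)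
      linarith
    · exact mul_le_mul_of_nonneg_right hCC (by positivity)
  · obtain ⟨x, h1, h2, h3⟩ := small d hd
    have hmax0 : 0 ≤ max C ((d₀ : ℝ) ^ 2) * (d : ℝ) ^ (-c) := by positivity
    have hkey : (d : ℝ) ≤ max C ((d₀ : ℝ) ^ 2) * (d : ℝ) ^ (-c) := by
      have hdd : (d : ℝ) ≤ d₀ := by exact_mod_cast hlt.le
      have e1 : (d : ℝ) ^ 2 * (d : ℝ) ^ (-c) ≤ max C ((d₀ : ℝ) ^ 2) * (d : ℝ) ^ (-c) := by
        apply mul_le_mul_of_nonneg_right _ hpos.le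
        refine le_trans ?_ (le_max_right _ _)
        exact pow_le_pow_left₀ hd0.le hdd 2
      refine le_trans ?_ e1
      have e2 : (d : ℝ) ^ (-(1 : ℝ)) ≤ (d : ℝ) ^ (-c) :=
        Real.rpow_le_rpow_of_exponent_le hdR (by linarith)
      calc (d : ℝ) = (d : ℝ) ^ 2 * (d : ℝ) ^ (-(1 : ℝ)) := by
            rw [Real.rpow_neg_one]
            field_simp
        _ ≤ _ := mul_le_mul_of_nonneg_left e2 (by positivity)
    refine ⟨d ^ 2, x, ?_, h1, fun i j hij => (h2 i j hij).trans hkey, ?_, univ, by simp, ?_⟩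
    · push_cast
      nlinarith [mul_nonneg hmax0 (sq_nonneg (d : ℝ))]
    · intro u
      rw [h3 u]
      push_cast
      field_simp
    · intro u
      rw [h3 u, sub_self, abs_zero]
      positivity

end Pool.Agent.Y387.AP
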