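import Pool.Agent.H109R2.SIC.Frame

/-!
# Nearly equiangular tight frames with nearly tight subfamilies of prescribed size

The Singer frames of `p² + p + 1` unit vectors restricted to `d ≤ p + 1` coordinates, together with
subfamilies of every size which are nearly tight in operator norm.
-/

set_option autoImplicit false

open Finset

namespace Pool.Agent.Y387.AP

open Pool.Agent.H109R2.SIC

variable (p : ℕ) [Fact p.Prime]

/-- a set of `m` characters with small sums at every nonzero point -/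
lemma exists_chars (m : ℕ) (hm : m ≤ p ^ 2 + p + 1) (L : ℝ)
    (hL : Real.log (2 * (2 * ((p : ℝ) ^ 2 + p + 1) + 1)) ≤ L) :
    ∃ R : Finset (AddChar (A3 p) ℂ), R.card = m ∧
      ∀ a : A3 p, a ≠ 0 → ‖∑ ψ ∈ R, ψ a‖ ≤ 8 * √((m : ℝ) * L) := by
  classical
  have hcA : Fintype.card (AddChar (A3 p) ℂ) = p ^ 2 + p + 1 := by
    rw [AddChar.card_eq, card_A3]
  obtain ⟨M, _, hMc, hM⟩ := select (univ : Finset (AddChar (A3 p) ℂ))
    (univ : Finset (A3 p × Bool))
    (fun i x => if i.2 = true then (x i.1).re else (x i.1).im)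
    (by
      intro i _ x _
      have h1 : ‖x i.1‖ = 1 := x.norm_apply i.1
      show |if i.2 = true then (x i.1).re else (x i.1).im| ≤ 1
      split_ifs
      · exact (Complex.abs_re_le_norm _).trans h1.le
      · exact (Complex.abs_im_le_norm _).trans h1.le) m (by rw [card_univ, hcA]; exact hm) L
    (by
      rw [card_univ, Fintype.card_prod, card_A3, Fintype.card_bool]
      push_cast
      refine le_trans (le_of_eq ?_) hL
      congr 1
      ring)
  refine ⟨M, hMc, fun a ha => ?_⟩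
  have hz : ∑ ψ : AddChar (A3 p) ℂ, ψ a = 0 := by
    rw [AddChar.sum_apply_eq_ite, if_neg ha]
  have hre := hM (a, true) (mem_univ _)
  have him := hM (a, false) (mem_univ _)
  simp only [if_true, Bool.false_eq_true, if_false] at hre him
  rw [← Complex.re_sum, ← Complex.re_sum, hz, Complex.zero_re, mul_zero, sub_zero] at hre
  rw [← Complex.im_sum, ← Complex.im_sum, hz, Complex.zero_im, mul_zero, sub_zero] at him
  refine (Complex.norm_le_abs_re_add_abs_im _).trans ?_
  linarith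

theorem frame2 (d : ℕ) (hd : 1 ≤ d) (hdp : d ≤ p + 1) (L : ℝ) (hL1 : 1 ≤ L)
    (hL : Real.log (2 * (2 * ((p : ℝ) ^ 2 + p + 1) + 1)) ≤ L) (K : ℕ) (hK : K ≤ p ^ 2 + p + 1) :
    ∃ v : Fin (p ^ 2 + p + 1) → EuclideanSpace ℂ (Fin d), (∀ i, ‖v i‖ = 1) ∧
      (∀ i j, i ≠ j →
        |(d : ℝ) * ‖inner ℂ (v i) (v j)‖ - √p| ≤ 9 * √(((p + 1 - d : ℕ) : ℝ) * L)) ∧
      (∀ x : EuclideanSpace ℂ (Fin d),
        ∑ i, ‖inner ℂ (v i) x‖ ^ 2 = (((p ^ 2 + p + 1 : ℕ) : ℝ) / d) * ‖x‖ ^ 2) ∧
      ∃ S : Finset (Fin (p ^ 2 + p + 1)), S.card = K ∧ ∀ x : EuclideanSpace ℂ (Fin d),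
        |∑ i ∈ S, ‖inner ℂ (v i) x‖ ^ 2 - ((K : ℝ) / d) * ‖x‖ ^ 2| ≤
          8 * √(((p ^ 2 + p + 1 - K : ℕ) : ℝ) * L) * ‖x‖ ^ 2 := by
  classical
  obtain ⟨E, hEc, hE⟩ := exists_sub p d hdp L hL1 hL
  have hcA : Fintype.card (AddChar (A3 p) ℂ) = p ^ 2 + p + 1 := by
    rw [AddChar.card_eq, card_A3]
  let e : Fin (p ^ 2 + p + 1) ≃ AddChar (A3 p) ℂ :=
    (Fintype.equivFinOfCardEq hcA).symm
  let f : Fin d ≃ E := (E.equivFinOfCardEq hEc).symm
  have hd0 : (0 : ℝ) < d := by exact_mod_cast hd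
  have hsd : (√d : ℂ) ≠ 0 := by
    have : √(d : ℝ) ≠ 0 := (Real.sqrt_pos.mpr hd0).ne'
    exact_mod_cast this
  have hsd2 : ((√d : ℝ) : ℂ) * ((√d : ℝ) : ℂ) = (d : ℂ) := by
    rw [← Complex.ofReal_mul, Real.mul_self_sqrt hd0.le]
    simp
  have hdC : (d : ℂ) ≠ 0 := by
    have : (d : ℝ) ≠ 0 := hd0.ne'
    exact_mod_cast this
  let v : Fin (p ^ 2 + p + 1) → EuclideanSpace ℂ (Fin d) := fun i =>
    WithLp.toLp 2 (fun k => e i (f k : A3 p) / ((√d : ℝ) : ℂ))
  have hv : ∀ i k, v i k = e i (f k : A3 p) / ((√d : ℝ) : ℂ) := fun _ _ => rfl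
  -- the expansion
  have hexp : ∀ (x : EuclideanSpace ℂ (Fin d)) (i), ((‖inner ℂ (v i) x‖ ^ 2 : ℝ) : ℂ) =
        (1 / (d : ℂ)) * ∑ k, ∑ l, (x k * (starRingEnd ℂ) (x l)) *
          e i ((f l : A3 p) - (f k : A3 p)) := by
      intro x i
      have h2 : inner ℂ (v i) x = ∑ k, x k * ((e i (f k : A3 p))⁻¹ / ((√d : ℝ) : ℂ)) := by
        rw [PiLp.inner_apply]
        apply sum_congr rfl
        intro k _
        rw [RCLike.inner_apply, hv, map_div₀, Complex.conj_ofReal, ← AddChar.inv_apply_eq_conj]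
      have h3 : (starRingEnd ℂ) (inner ℂ (v i) x) =
          ∑ l, (starRingEnd ℂ) (x l) * (e i (f l : A3 p) / ((√d : ℝ) : ℂ)) := by
        rw [h2, map_sum]
        apply sum_congr rfl
        intro l _
        rw [map_mul, map_div₀, Complex.conj_ofReal, map_inv₀, ← AddChar.inv_apply_eq_conj, inv_inv]
      rw [Complex.ofReal_pow, ← Complex.mul_conj', h3, h2, sum_mul_sum, mul_sum]
      apply sum_congr rfl
      intro k _
      rw [mul_sum]
      apply sum_congr rfl
      intro l _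
      have h4 : e i ((f l : A3 p) - (f k : A3 p)) =
          e i (f l : A3 p) * (e i (f k : A3 p))⁻¹ := by
        rw [AddChar.map_sub_eq_div, div_eq_mul_inv]
      rw [h4]
      calc _ = (x k * (starRingEnd ℂ) (x l)) * (e i (f l : A3 p) *
            (e i (f k : A3 p))⁻¹) * (1 / (((√d : ℝ) : ℂ) * ((√d : ℝ) : ℂ))) := by
            field_simp
        _ = _ := by rw [hsd2]; ring
  have htight : ∀ x : EuclideanSpace ℂ (Fin d),
        ∑ i, ‖inner ℂ (v i) x‖ ^ 2 = (((p ^ 2 + p + 1 : ℕ) : ℝ) / d) * ‖x‖ ^ 2 := by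
    intro x
    have h5 : ((∑ i, ‖inner ℂ (v i) x‖ ^ 2 : ℝ) : ℂ) =
        (((((p ^ 2 + p + 1 : ℕ) : ℝ) / d) * ‖x‖ ^ 2 : ℝ) : ℂ) := by
      rw [Complex.ofReal_sum, sum_congr rfl (fun i _ => hexp x i), ← mul_sum, sum_comm]
      have h6 : ∀ k ∈ (univ : Finset (Fin d)), ∑ i, ∑ l, (x k * (starRingEnd ℂ) (x l)) *
          e i ((f l : A3 p) - (f k : A3 p)) =
          ((p ^ 2 + p + 1 : ℕ) : ℂ) * ((‖x k‖ ^ 2 : ℝ) : ℂ) := by
        intro k _
        rw [sum_comm]
        rw [Fintype.sum_eq_single k]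
        · simp only [sub_self, AddChar.map_zero_eq_one, mul_one, sum_const, card_univ,
            Fintype.card_fin, nsmul_eq_mul]
          rw [Complex.mul_conj', Complex.ofReal_pow]
        · intro l hl
          rw [← mul_sum]
          have h7 : ∑ i, e i ((f l : A3 p) - (f k : A3 p)) =
              ∑ ψ : AddChar (A3 p) ℂ, ψ ((f l : A3 p) - (f k : A3 p)) :=
            Fintype.sum_equiv e _ _ (fun _ => rfl)
          rw [h7, AddChar.sum_apply_eq_ite, if_neg, mul_zero]
          intro h8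
          apply hl
          have h9 : (f l : A3 p) = f k := sub_eq_zero.mp h8
          exact f.injective (Subtype.ext h9)
      rw [sum_congr rfl h6, ← mul_sum, EuclideanSpace.norm_sq_eq]
      push_cast
      field_simp
    exact_mod_cast h5
  refine ⟨v, ?_, ?_, htight, ?_⟩
  · intro i
    rw [EuclideanSpace.norm_eq]
    have h1 : ∀ k, ‖v i k‖ ^ 2 = 1 / d := by
      intro k
      rw [hv, norm_div, (e i).norm_apply, Complex.norm_real, Real.norm_of_nonneg (Real.sqrt_nonneg _),
        div_pow, one_pow, Real.sq_sqrt hd0.le]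
    rw [sum_congr rfl (fun k _ => h1 k), sum_const, card_univ, Fintype.card_fin, nsmul_eq_mul,
      mul_one_div_cancel hd0.ne', Real.sqrt_one]
  · intro i j hij
    have h1 : inner ℂ (v i) (v j) = (1 / (d : ℂ)) * ∑ g ∈ E, (e j / e i) g := by
      rw [PiLp.inner_apply, mul_sum, ← Finset.sum_coe_sort E]
      apply Fintype.sum_equiv f
      intro k
      rw [RCLike.inner_apply, hv, hv, AddChar.div_apply', map_div₀, Complex.conj_ofReal,
        ← AddChar.inv_apply_eq_conj]
      rw [div_mul_div_comm, hsd2]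
      field_simp
    have hne : e j / e i ≠ 1 := by
      intro h
      exact hij (e.injective (div_eq_one.mp h)).symm
    have h2 := hE (e j / e i) hne
    rw [h1, norm_mul, norm_div, norm_one, Complex.norm_natCast]
    have h3 : (d : ℝ) * (1 / d * ‖∑ g ∈ E, (e j / e i) g‖) = ‖∑ g ∈ E, (e j / e i) g‖ := by
      field_simp
    rw [h3]
    exact h2
  · obtain ⟨R, hRc, hR⟩ := exists_chars p (p ^ 2 + p + 1 - K) (Nat.sub_le _ _) L hL
    set B : ℝ := 8 * √(((p ^ 2 + p + 1 - K : ℕ) : ℝ) * L) with hB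
    have hB0 : 0 ≤ B := by positivity
    let R' : Finset (Fin (p ^ 2 + p + 1)) := univ.filter fun i => e i ∈ R
    have hR'c : R'.card = p ^ 2 + p + 1 - K := by
      rw [← hRc]
      refine Finset.card_bij (fun i _ => e i) ?_ ?_ ?_
      · intro i hi
        exact (mem_filter.mp hi).2
      · intro i _ j _ hij
        exact e.injective hij
      · intro ψ hψ
        refine ⟨e.symm ψ, ?_, by simp⟩
        simp [R', hψ]
    have hsumR : ∀ a : A3 p, ∑ i ∈ R', e i a = ∑ ψ ∈ R, ψ a := by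
      intro a
      refine Finset.sum_bij (fun i _ => e i) ?_ ?_ ?_ ?_
      · intro i hi
        exact (mem_filter.mp hi).2
      · intro i _ j _ hij
        exact e.injective hij
      · intro ψ hψ
        refine ⟨e.symm ψ, ?_, by simp⟩
        simp [R', hψ]
      · intro i _
        rfl
    refine ⟨R'ᶜ, ?_, ?_⟩
    · rw [card_compl, Fintype.card_fin, hR'c]
      omega
    · intro x
      have hsplit : ∑ i ∈ R', ‖inner ℂ (v i) x‖ ^ 2 + ∑ i ∈ R'ᶜ, ‖inner ℂ (v i) x‖ ^ 2 =
          ∑ i, ‖inner ℂ (v i) x‖ ^ 2 := by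
        rw [Finset.sum_add_sum_compl]
      rw [htight x] at hsplit
      -- the removed part
      have hkey : |∑ i ∈ R', ‖inner ℂ (v i) x‖ ^ 2 -
          (((p ^ 2 + p + 1 - K : ℕ) : ℝ) / d) * ‖x‖ ^ 2| ≤ B * ‖x‖ ^ 2 := by
        have h1 : ((∑ i ∈ R', ‖inner ℂ (v i) x‖ ^ 2 -
            (((p ^ 2 + p + 1 - K : ℕ) : ℝ) / d) * ‖x‖ ^ 2 : ℝ) : ℂ) =
            (1 / (d : ℂ)) * ∑ k, ∑ l ∈ univ.erase k, (x k * (starRingEnd ℂ) (x l)) *
              ∑ ψ ∈ R, ψ ((f l : A3 p) - (f k : A3 p)) := by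
          rw [Complex.ofReal_sub, Complex.ofReal_sum, sum_congr rfl (fun i _ => hexp x i),
            ← mul_sum, sum_comm]
          have h2 : ∀ k ∈ (univ : Finset (Fin d)), ∑ i ∈ R', ∑ l, (x k * (starRingEnd ℂ) (x l)) *
              e i ((f l : A3 p) - (f k : A3 p)) =
              ((p ^ 2 + p + 1 - K : ℕ) : ℂ) * ((‖x k‖ ^ 2 : ℝ) : ℂ) +
              ∑ l ∈ univ.erase k, (x k * (starRingEnd ℂ) (x l)) *
                ∑ ψ ∈ R, ψ ((f l : A3 p) - (f k : A3 p)) := by
            intro k _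
            rw [sum_comm, ← Finset.add_sum_erase univ _ (mem_univ k)]
            congr 1
            · simp only [sub_self, AddChar.map_zero_eq_one, mul_one, sum_const, hR'c,
                nsmul_eq_mul]
              rw [Complex.mul_conj', Complex.ofReal_pow]
            · apply sum_congr rfl
              intro l _
              rw [← mul_sum, hsumR]
          rw [sum_congr rfl h2, sum_add_distrib, ← mul_sum, EuclideanSpace.norm_sq_eq]
          push_cast
          field_simp
          ring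
        have h2 : |∑ i ∈ R', ‖inner ℂ (v i) x‖ ^ 2 -
            (((p ^ 2 + p + 1 - K : ℕ) : ℝ) / d) * ‖x‖ ^ 2| =
            ‖((∑ i ∈ R', ‖inner ℂ (v i) x‖ ^ 2 -
              (((p ^ 2 + p + 1 - K : ℕ) : ℝ) / d) * ‖x‖ ^ 2 : ℝ) : ℂ)‖ := by
          rw [Complex.norm_real, Real.norm_eq_abs]
        rw [h2, h1, norm_mul, norm_div, norm_one, Complex.norm_natCast]
        have h3 : ‖∑ k, ∑ l ∈ univ.erase k, (x k * (starRingEnd ℂ) (x l)) *
              ∑ ψ ∈ R, ψ ((f l : A3 p) - (f k : A3 p))‖ ≤ B * (d * ‖x‖ ^ 2) := by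
          calc _ ≤ ∑ k, ∑ l ∈ univ.erase k, ‖(x k * (starRingEnd ℂ) (x l)) *
                ∑ ψ ∈ R, ψ ((f l : A3 p) - (f k : A3 p))‖ :=
                (norm_sum_le _ _).trans (sum_le_sum fun k _ => norm_sum_le _ _)
            _ ≤ ∑ k, ∑ l ∈ univ.erase k, ‖x k‖ * ‖x l‖ * B := by
                apply sum_le_sum
                intro k _
                apply sum_le_sum
                intro l hl
                rw [norm_mul, norm_mul, RCLike.norm_conj]
                apply mul_le_mul_of_nonneg_left _ (by positivity)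
                apply hR
                intro h8
                have h9 : (f l : A3 p) = f k := sub_eq_zero.mp h8
                exact (Finset.ne_of_mem_erase hl) (f.injective (Subtype.ext h9))
            _ ≤ ∑ k, ∑ l, ‖x k‖ * ‖x l‖ * B := by
                apply sum_le_sum
                intro k _
                apply Finset.sum_le_sum_of_subset_of_nonneg (erase_subset _ _)
                intro l _ _
                positivity
            _ = B * (∑ k, ‖x k‖) ^ 2 := by
                rw [sq, sum_mul_sum, mul_sum]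
                apply sum_congr rfl
                intro k _
                rw [mul_sum]
                apply sum_congr rfl
                intro l _
                ring
            _ ≤ B * (d * ‖x‖ ^ 2) := by
                apply mul_le_mul_of_nonneg_left _ hB0
                have := sq_sum_le_card_mul_sum_sq (s := (univ : Finset (Fin d)))
                  (f := fun k => ‖x k‖)
                rw [card_univ, Fintype.card_fin] at this
                rw [EuclideanSpace.norm_sq_eq]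
                exact this
        calc 1 / (d : ℝ) * ‖∑ k, ∑ l ∈ univ.erase k, (x k * (starRingEnd ℂ) (x l)) *
              ∑ ψ ∈ R, ψ ((f l : A3 p) - (f k : A3 p))‖ ≤ 1 / (d : ℝ) * (B * (d * ‖x‖ ^ 2)) := by
              apply mul_le_mul_of_nonneg_left h3 (by positivity)
          _ = B * ‖x‖ ^ 2 := by field_simp
      have hcast : ((p ^ 2 + p + 1 - K : ℕ) : ℝ) = ((p ^ 2 + p + 1 : ℕ) : ℝ) - K := by
        rw [Nat.cast_sub hK]
      have h4 : ∑ i ∈ R'ᶜ, ‖inner ℂ (v i) x‖ ^ 2 - ((K : ℝ) / d) * ‖x‖ ^ 2 =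
          -(∑ i ∈ R', ‖inner ℂ (v i) x‖ ^ 2 -
          (((p ^ 2 + p + 1 - K : ℕ) : ℝ) / d) * ‖x‖ ^ 2) := by
        have h5 : (((p ^ 2 + p + 1 - K : ℕ) : ℝ) / d) * ‖x‖ ^ 2 =
            (((p ^ 2 + p + 1 : ℕ) : ℝ) / d) * ‖x‖ ^ 2 - ((K : ℝ) / d) * ‖x‖ ^ 2 := by
          rw [hcast]
          ring
        rw [h5]
        linarith
      rw [h4, abs_neg]
      exact hkey

end Pool.Agent.Y387.AP
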